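import Mathlib
import Pool.Agent.H17.Smooth

set_option autoImplicit false

namespace Pool.Agent.Results.MP_b44203_nt.SignChanges

noncomputable def f (p q n : ℕ) : ℕ :=
  {S : Finset ℕ | (∀ s ∈ S, ∃ a b : ℕ, s = p ^ a * q ^ b) ∧ ∑ s ∈ S, s = n}.ncard

open Pool.Agent.H17.Smooth in
theorem result (p q : ℕ) (hp : 2 < p) (hq : p < q) (h : Nat.Coprime p q) :
    {n | f p q n < f p q (n + 1)}.Infinite ∧ {n | f p q (n + 1) < f p q n}.Infinite := by
  have e : ∀ u v, 2 ≤ u → 2 ≤ v → Nat.Coprime u v → f u v = cnt (aF u v) := by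
    intro u v hu hv h
    have i := aF_inj hu hv h
    funext n
    symm
    refine Set.ncard_congr (fun S _ => S.image (aF u v)) (fun S hS => ⟨fun s hs => ?_, ?_⟩)
      (fun S T _ _ e => Finset.image_injective i e) fun S hS => ?_
    · obtain ⟨x, _, rfl⟩ := Finset.mem_image.1 hs
      exact ⟨_, _, rfl⟩
    · rw [Finset.sum_image i.injOn]
      exact hS
    · have : (S.preimage _ i.injOn).image (aF u v) = S := by
        classical
        rw [Finset.image_preimage, Finset.filter_eq_self]
        intro s hs
        obtain ⟨a, b, e⟩ := hS.1 s hs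
        exact ⟨(a, b), e.symm⟩
      refine ⟨S.preimage _ i.injOn, ?_, this⟩
      rw [Set.mem_ofPred_eq, ← hS.2, ← Finset.sum_image (g := aF u v) (f := fun s => s) i.injOn,
        this]
  have sw : f p q = f q p := by
    funext n
    simp only [f]
    congr 1
    ext S
    refine and_congr_left fun _ => forall₂_congr fun s _ => ?_
    rw [exists_comm]
    simp only [mul_comm]
  have key : ∀ (ε : ℝ) (N : ℕ), ε = 1 ∨ ε = -1 →
      ¬ ∀ n, N ≤ n → 0 ≤ ε * ((f p q (n + 1) : ℝ) - f p q n) := by
    intro ε N hε hf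
    rcases Nat.even_or_odd p with ho | ho
    · rw [sw, e q p (by omega) (by omega) h.symm] at hf
      exact main (Nat.odd_iff.2 (by
        by_contra hc
        have := Nat.eq_one_of_dvd_coprimes h ho.two_dvd (Nat.dvd_of_mod_eq_zero (by omega))
        omega)) (by omega) (by omega) h.symm hε hf
    · rw [e p q (by omega) (by omega) h] at hf
      exact main ho (by omega) (by omega) h hε hf
  constructor <;> intro hfin <;> obtain ⟨N, hN⟩ := hfin.bddAbove
  · refine key (-1) (N + 1) (Or.inr rfl) fun n hn => ?_
    have : f p q (n + 1) ≤ f p q n := not_lt.1 fun h => by have := hN h; omega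
    have : (f p q (n + 1) : ℝ) ≤ f p q n := by exact_mod_cast this
    linarith
  · refine key 1 (N + 1) (Or.inl rfl) fun n hn => ?_
    have : f p q n ≤ f p q (n + 1) := not_lt.1 fun h => by have := hN h; omega
    have : (f p q n : ℝ) ≤ f p q (n + 1) := by exact_mod_cast this
    linarith

end Pool.Agent.Results.MP_b44203_nt.SignChanges
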